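import Pool.Agent.Lib.MP_bae66e_nt.Mg.G049
import Pool.Agent.Lib.MP_bae66e_nt.Mg.G041
import Pool.Agent.Lib.MP_bae66e_nt.Mertens

/-!
# M01: the singular series and its truncations
-/

set_option autoImplicit false

open Finset Filter Topology

namespace Pool.Agent.Lib.MP_bae66e_nt.LL

/-- `1 - 1/(p - 1)²` for odd primes `p`, and `1` otherwise. -/
noncomputable def lf (p : ℕ) : ℝ := if p.Prime ∧ 2 < p then 1 - 1 / ((p : ℝ) - 1) ^ 2 else 1

/-- The twin prime constant `∏_{p > 2} (1 - 1/(p - 1)²)`. -/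
noncomputable def twinC : ℝ := ∏' p : ℕ, lf p

/-- The singular series `2 C₂ ∏_{p ∣ m, p > 2} (p - 1)/(p - 2)` of the Goldbach problem. -/
noncomputable def singSer (m : ℕ) : ℝ :=
  2 * twinC * ∏ p ∈ m.primeFactors.filter (fun p => 2 < p), ((p : ℝ) - 1) / ((p : ℝ) - 2)

/-- The part of the product over the primes in a set `T`. -/
noncomputable def gT (T : ℕ → Prop) [DecidablePred T] (m : ℕ) : ℝ :=
  ∏ p ∈ m.primeFactors, (1 + if 2 < p ∧ T p then 1 / ((p : ℝ) - 2) else 0)

lemma lf_nonneg (p : ℕ) : 0 ≤ lf p := by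
  unfold lf
  split_ifs with h
  · have h3 : (3 : ℝ) ≤ p := by exact_mod_cast h.2
    rw [sub_nonneg, div_le_one (by nlinarith)]
    nlinarith
  · exact zero_le_one

lemma lf_le_one (p : ℕ) : lf p ≤ 1 := by
  unfold lf
  split_ifs with h
  · have : 0 ≤ 1 / ((p : ℝ) - 1) ^ 2 := by positivity
    linarith
  · exact le_rfl

lemma multipliable_lf : Multipliable lf := by
  have h1 : lf = fun p : ℕ => 1 + (lf p - 1) := by
    funext p; ring
  rw [h1]
  refine Real.multipliable_one_add_of_summable ?_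
  have h2 : Summable (fun n : ℕ => 4 * (1 / (n : ℝ) ^ 2)) :=
    (Real.summable_one_div_nat_pow.2 one_lt_two).mul_left 4
  refine Summable.of_norm_bounded h2 ?_
  intro p
  rw [Real.norm_eq_abs]
  unfold lf
  split_ifs with h
  · have h3 : (3 : ℝ) ≤ p := by exact_mod_cast h.2
    have e : (1 : ℝ) - 1 / ((p : ℝ) - 1) ^ 2 - 1 = -(1 / ((p : ℝ) - 1) ^ 2) := by ring
    have e2 : 4 * (1 / (p : ℝ) ^ 2) = 4 / (p : ℝ) ^ 2 := by ring
    rw [e, abs_neg, abs_of_nonneg (by positivity), e2,
      div_le_div_iff₀ (by nlinarith) (by positivity)]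
    nlinarith
  · rw [sub_self, abs_zero]
    positivity

lemma tendsto_prod_lf : Tendsto (fun z : ℕ => ∏ p ∈ Finset.range (z + 1), lf p) atTop (𝓝 twinC) :=
  (multipliable_lf.hasProd.tendsto_prod_nat).comp (tendsto_add_atTop_nat 1)

lemma twinC_nonneg : 0 ≤ twinC :=
  ge_of_tendsto' tendsto_prod_lf (fun _ => Finset.prod_nonneg (fun p _ => lf_nonneg p))

lemma prod_lf_le_one (z : ℕ) : ∏ p ∈ Finset.range (z + 1), lf p ≤ 1 :=
  Finset.prod_le_one (fun p _ => lf_nonneg p) (fun p _ => lf_le_one p)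

lemma twinC_le_one : twinC ≤ 1 :=
  le_of_tendsto' tendsto_prod_lf prod_lf_le_one

lemma twinC_le_prod (z : ℕ) : twinC ≤ ∏ p ∈ Finset.range (z + 1), lf p := by
  refine le_of_tendsto tendsto_prod_lf ?_
  filter_upwards [eventually_ge_atTop z] with n hn
  rw [← Finset.prod_range_mul_prod_Ico lf (by omega : z + 1 ≤ n + 1)]
  refine mul_le_of_le_one_right (Finset.prod_nonneg (fun p _ => lf_nonneg p)) ?_
  exact Finset.prod_le_one (fun p _ => lf_nonneg p) (fun p _ => lf_le_one p)

lemma one_le_gT (T : ℕ → Prop) [DecidablePred T] (m : ℕ) : 1 ≤ gT T m := by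
  unfold gT
  calc (1 : ℝ) = ∏ p ∈ m.primeFactors, (1 : ℝ) := by rw [Finset.prod_const_one]
    _ ≤ _ := by
      refine Finset.prod_le_prod (fun _ _ => zero_le_one) ?_
      intro p _
      split_ifs with h
      · have h3 : (3 : ℝ) ≤ p := by exact_mod_cast h.1
        have : 0 ≤ 1 / ((p : ℝ) - 2) := by
          apply div_nonneg zero_le_one; linarith
        linarith
      · simp

lemma singSer_eq (z m : ℕ) :
    singSer m = 2 * twinC * (gT (fun p => p ≤ z) m * gT (fun p => z < p) m) := by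
  unfold singSer gT
  rw [← Finset.prod_mul_distrib, Finset.prod_filter]
  congr 1
  refine Finset.prod_congr rfl fun p _ => ?_
  by_cases h : 2 < p
  · have h3 : (3 : ℝ) ≤ p := by exact_mod_cast h
    have h4 : (p : ℝ) - 2 ≠ 0 := by
      intro h5; linarith
    by_cases hz : p ≤ z
    · have hz' : ¬ z < p := by omega
      simp only [h, hz, hz', and_self, and_false, if_true, if_false, add_zero, mul_one]
      field_simp
      ring
    · have hz' : z < p := by omega
      simp only [h, hz, hz', and_self, and_false, if_true, if_false, add_zero, one_mul]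
      field_simp
      ring
  · simp [h]

/-- The truncated singular series for even `m ≥ 1`. -/
lemma SP_eq_trunc (z m : ℕ) (hz : 2 ≤ z) (hm : Even m) (hm0 : m ≠ 0) :
    SP (primorial z) (m : ℤ)
      = 2 * (∏ p ∈ Finset.range (z + 1), lf p) * gT (fun p => p ≤ z) m := by
  unfold SP
  rw [SS_pair_eq]
  have h1 : (primorial z).primeFactors = (Finset.range (z + 1)).filter Nat.Prime := by
    unfold primorial
    exact Nat.primeFactors_prod (fun p hp => (Finset.mem_filter.1 hp).2)
  rw [h1]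
  have h2 : ∏ p ∈ Finset.range (z + 1), lf p
      = ∏ p ∈ (Finset.range (z + 1)).filter Nat.Prime, lf p := by
    rw [Finset.prod_filter]
    refine Finset.prod_congr rfl fun p _ => ?_
    split_ifs with h
    · rfl
    · unfold lf; simp [h]
  have h3 : gT (fun p => p ≤ z) m = ∏ p ∈ (Finset.range (z + 1)).filter Nat.Prime,
      (if p ∣ m then (1 + if 2 < p ∧ p ≤ z then 1 / ((p : ℝ) - 2) else 0) else 1) := by
    unfold gT
    rw [← Finset.prod_filter, Finset.filter_filter]
    refine (Finset.prod_subset ?_ ?_).symm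
    · intro p hp
      rw [Finset.mem_filter] at hp
      exact Nat.mem_primeFactors.2 ⟨hp.2.1, hp.2.2, hm0⟩
    · intro p hp hp2
      have h4 := Nat.mem_primeFactors.1 hp
      have h5 : ¬ p ≤ z := by
        intro h6
        exact hp2 (Finset.mem_filter.2 ⟨Finset.mem_range.2 (by omega), h4.1, h4.2.1⟩)
      simp [h5]
  have h4 : ∏ p ∈ (Finset.range (z + 1)).filter Nat.Prime, (if p = 2 then (2 : ℝ) else 1) = 2 := by
    rw [Finset.prod_ite_eq' _ 2 (fun _ => (2 : ℝ)), if_pos]
    exact Finset.mem_filter.2 ⟨Finset.mem_range.2 (by omega), Nat.prime_two⟩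
  have h40 : ∀ A B C : ℝ, C = 2 → 2 * A * B = C * A * B := by
    intro A B C h; rw [h]
  rw [h2, h3, h40 _ _ _ h4, ← Finset.prod_mul_distrib, ← Finset.prod_mul_distrib]
  refine Finset.prod_congr rfl fun p hp => ?_
  rw [Finset.mem_filter, Finset.mem_range] at hp
  have hpz : p ≤ z := by omega
  by_cases hp2 : p = 2
  · subst hp2
    have h5 : ((2 : ℕ) : ℤ) ∣ (m : ℤ) := Int.natCast_dvd_natCast.2 hm.two_dvd
    rw [if_pos h5, if_pos rfl, if_pos hm.two_dvd]
    unfold lf
    norm_num
  · have h6 : 2 < p := lt_of_le_of_ne hp.2.two_le (Ne.symm hp2)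
    have h7 : (3 : ℝ) ≤ p := by exact_mod_cast h6
    have h8 : (p : ℝ) - 2 ≠ 0 := by intro h; linarith
    have h9 : (p : ℝ) - 1 ≠ 0 := by intro h; linarith
    have h10 : lf p = 1 - 1 / ((p : ℝ) - 1) ^ 2 := by
      unfold lf
      rw [if_pos ⟨hp.2, h6⟩]
    rw [if_neg hp2, h10]
    by_cases hd : p ∣ m
    · rw [if_pos (Int.natCast_dvd_natCast.2 hd), if_pos hd, if_pos ⟨h6, hpz⟩]
      field_simp
      ring
    · rw [if_neg (fun h => hd (Int.natCast_dvd_natCast.1 h)), if_neg hd]
      field_simp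
      ring

end Pool.Agent.Lib.MP_bae66e_nt.LL
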