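import Pool.Agent.Lib.MP_bae66e_nt.LL.M.M01

/-!
# M02: mean square of the partial products
-/

set_option autoImplicit false

open Finset Filter Topology

namespace Pool.Agent.Lib.MP_bae66e_nt.LL

/-- `∑_{m ≤ X} gT(m)² ≤ X exp(9 ∑_{p ∈ T, p ≤ X} 1/p²)`. -/
lemma sum_gT_sq_le (T : ℕ → Prop) [DecidablePred T] (X : ℕ) :
    ∑ m ∈ Finset.Icc 1 X, (gT T m) ^ 2
      ≤ X * Real.exp (9 * ∑ p ∈ (prms X).filter T, 1 / (p : ℝ) ^ 2) := by
  obtain ⟨β, hβ⟩ : ∃ β : ℕ → ℝ, ∀ p, β p = if 2 < p ∧ T p then 9 / (p : ℝ) else 0 := ⟨_, fun _ => rfl⟩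
  have hβ0 : ∀ p, 0 ≤ β p := by
    intro p; rw [hβ]; split_ifs <;> positivity
  have h1 := sum_weight_prod_le X (fun _ => (1 : ℝ)) X β hβ0 (by
    intro D hD
    have h2 : ((Finset.Icc 1 X).filter (fun n => D ∣ n)).card ≤ X / D := by
      rw [← Nat.card_multiples X D]
      refine Finset.card_le_card_of_injOn (fun n => n - 1) ?_ ?_
      · intro n hn
        simp only [Finset.coe_filter, Finset.mem_Icc, Set.mem_ofPred_eq] at hn
        simp only [Finset.coe_filter, Finset.mem_range, Set.mem_ofPred_eq]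
        refine ⟨by omega, ?_⟩
        rw [Nat.sub_add_cancel hn.1.1]
        exact hn.2
      · intro a ha b hb hab
        simp only [Finset.coe_filter, Finset.mem_Icc, Set.mem_ofPred_eq] at ha hb
        simp only at hab
        omega
    rw [Finset.sum_const, nsmul_eq_mul, mul_one]
    calc (((Finset.Icc 1 X).filter (fun n => D ∣ n)).card : ℝ) ≤ ((X / D : ℕ) : ℝ) := by
          exact_mod_cast h2
      _ ≤ (X : ℝ) / D := Nat.cast_div_le)
  have h2 : ∑ m ∈ Finset.Icc 1 X, (gT T m) ^ 2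
      ≤ ∑ n ∈ Finset.Icc 1 X, (1 : ℝ) * ∏ p ∈ n.primeFactors, (1 + β p) := by
    refine Finset.sum_le_sum fun m _ => ?_
    unfold gT
    rw [one_mul, ← Finset.prod_pow]
    refine Finset.prod_le_prod (fun p _ => sq_nonneg _) ?_
    intro p _
    rw [hβ]
    split_ifs with h
    · have h3 : (3 : ℝ) ≤ p := by exact_mod_cast h.1
      have h4 : (0 : ℝ) < (p : ℝ) - 2 := by linarith
      have h5 : 1 / ((p : ℝ) - 2) ≤ 3 / p := by
        rw [div_le_div_iff₀ h4 (by linarith)]
        linarith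
      have h6 : 0 ≤ 1 / ((p : ℝ) - 2) := by positivity
      have h7 : 1 / ((p : ℝ) - 2) ≤ 1 := by
        rw [div_le_one h4]; linarith
      have h8 : 9 / (p : ℝ) = 3 * (3 / p) := by ring
      rw [h8]
      nlinarith
    · norm_num
  refine h2.trans (h1.trans ?_)
  refine mul_le_mul_of_nonneg_left ?_ (Nat.cast_nonneg X)
  calc ∏ p ∈ prms X, (1 + β p / p)
      ≤ ∏ p ∈ prms X, Real.exp (if T p then 9 * (1 / (p : ℝ) ^ 2) else 0) := by
        refine Finset.prod_le_prod ?_ ?_
        · intro p _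
          have := hβ0 p
          positivity
        · intro p _
          rw [add_comm]
          refine le_trans ?_ (Real.add_one_le_exp _)
          refine add_le_add_left ?_ _
          rw [hβ]
          by_cases hT : T p
          · by_cases h2 : 2 < p
            · simp only [h2, hT, and_self, if_true]
              apply le_of_eq
              ring
            · simp only [h2, hT, false_and, if_true, if_false, zero_div]
              positivity
          · simp [hT]
    _ = Real.exp (9 * ∑ p ∈ (prms X).filter T, 1 / (p : ℝ) ^ 2) := by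
        rw [← Real.exp_sum, Finset.mul_sum, Finset.sum_filter]

lemma sum_gT_sq_le_all (T : ℕ → Prop) [DecidablePred T] (X : ℕ) :
    ∑ m ∈ Finset.Icc 1 X, (gT T m) ^ 2 ≤ X * Real.exp 9 := by
  refine (sum_gT_sq_le T X).trans ?_
  refine mul_le_mul_of_nonneg_left ?_ (Nat.cast_nonneg X)
  apply Real.exp_le_exp.2
  have h1 : ∑ p ∈ (prms X).filter T, 1 / (p : ℝ) ^ 2 ≤ ∑ p ∈ prms X, 1 / (p : ℝ) ^ 2 :=
    Finset.sum_le_sum_of_subset_of_nonneg (Finset.filter_subset _ _) (fun _ _ _ => by positivity)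
  have h2 := sum_prms_inv_sq_le X
  linarith

lemma sum_gT_sq_tail (z X : ℕ) (hz : 1 ≤ z) :
    ∑ m ∈ Finset.Icc 1 X, ((gT (fun p => z < p) m) ^ 2 - 1) ≤ X * (Real.exp (9 / z) - 1) := by
  have h0 := sum_gT_sq_le (fun p => z < p) X
  have h1 : ∑ p ∈ (prms X).filter (fun p => z < p), 1 / (p : ℝ) ^ 2 ≤ 1 / (z : ℝ) := by
    by_cases hzX : z ≤ X
    · calc ∑ p ∈ (prms X).filter (fun p => z < p), 1 / (p : ℝ) ^ 2
          ≤ ∑ i ∈ Finset.Ioc z X, 1 / (i : ℝ) ^ 2 := by
            refine Finset.sum_le_sum_of_subset_of_nonneg ?_ (fun _ _ _ => by positivity)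
            intro p hp
            rw [Finset.mem_filter] at hp
            exact Finset.mem_Ioc.2 ⟨hp.2, (mem_prms.mp hp.1).1⟩
        _ = ∑ i ∈ Finset.Ioc z X, ((i : ℝ) ^ 2)⁻¹ := by simp only [one_div]
        _ ≤ (z : ℝ)⁻¹ - (X : ℝ)⁻¹ :=
            sum_Ioc_inv_sq_le_sub (α := ℝ) (k := z) (n := X) (by omega) hzX
        _ ≤ 1 / (z : ℝ) := by
            have : (0 : ℝ) ≤ (X : ℝ)⁻¹ := by positivity
            rw [one_div]
            linarith
    · have h2 : (prms X).filter (fun p => z < p) = ∅ := by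
        apply Finset.filter_eq_empty_iff.2
        intro p hp
        have := (mem_prms.mp hp).1
        omega
      rw [h2, Finset.sum_empty]
      positivity
  have h2 : Real.exp (9 * ∑ p ∈ (prms X).filter (fun p => z < p), 1 / (p : ℝ) ^ 2)
      ≤ Real.exp (9 / z) := by
    apply Real.exp_le_exp.2
    calc (9 : ℝ) * ∑ p ∈ (prms X).filter (fun p => z < p), 1 / (p : ℝ) ^ 2 ≤ 9 * (1 / (z : ℝ)) := by
          linarith
      _ = 9 / (z : ℝ) := by ring
  rw [Finset.sum_sub_distrib, Finset.sum_const, Nat.card_Icc, nsmul_eq_mul]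
  have h3 : (0 : ℝ) ≤ X := Nat.cast_nonneg X
  have h4 := mul_le_mul_of_nonneg_left h2 h3
  have h5 : ((X + 1 - 1 : ℕ) : ℝ) = X := by simp
  rw [h5]
  nlinarith

end Pool.Agent.Lib.MP_bae66e_nt.LL
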