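import Pool.Agent.Lib.MP_bae66e_nt.LL.M.M02
import Pool.Agent.Lib.MP_bae66e_nt.Mg.G050

/-!
# M03: the conjectured law is the mean value of `exp(-t S(m))`
-/

set_option autoImplicit false

open Finset Filter Topology

namespace Pool.Agent.Lib.MP_bae66e_nt.LL

/-- The pointwise comparison of the singular series with its truncation. -/
lemma abs_singSer_sub_le (z m : ℕ) (hz : 2 ≤ z) (hm : Even m) (hm0 : m ≠ 0) (η : ℝ) (hη : 0 < η) :
    |singSer m - SP (primorial z) (m : ℤ)|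
      ≤ η * (gT (fun p => p ≤ z) m) ^ 2 + 1 / η * ((gT (fun p => z < p) m) ^ 2 - 1)
        + 2 * (∏ p ∈ Finset.range (z + 1), lf p - twinC) * (gT (fun p => p ≤ z) m) ^ 2 := by
  rw [singSer_eq z m, SP_eq_trunc z m hz hm hm0]
  have h1 := one_le_gT (fun p => p ≤ z) m
  have h2 := one_le_gT (fun p => z < p) m
  have h3 := twinC_nonneg
  have h4 := twinC_le_one
  have h5 := twinC_le_prod z
  obtain ⟨g, hg⟩ : ∃ g, g = gT (fun p => p ≤ z) m := ⟨_, rfl⟩
  obtain ⟨f, hf⟩ : ∃ f, f = gT (fun p => z < p) m := ⟨_, rfl⟩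
  obtain ⟨c, hc⟩ : ∃ c, c = twinC := ⟨_, rfl⟩
  obtain ⟨d, hd⟩ : ∃ d, d = ∏ p ∈ Finset.range (z + 1), lf p := ⟨_, rfl⟩
  rw [← hg] at h1 ⊢
  rw [← hf] at h2 ⊢
  rw [← hc] at h3 h4 h5 ⊢
  rw [← hd] at h5 ⊢
  have h6 : 2 * c * (g * f) - 2 * d * g = 2 * g * c * (f - 1) - 2 * (d - c) * g := by ring
  have h7 : 2 * g * (f - 1) ≤ η * g ^ 2 + 1 / η * (f - 1) ^ 2 := by
    have h8 : 0 ≤ 1 / η * (η * g - (f - 1)) ^ 2 := by positivity
    have h9 : 1 / η * (η * g - (f - 1)) ^ 2 = η * g ^ 2 - 2 * g * (f - 1) + 1 / η * (f - 1) ^ 2 := by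
      field_simp
      ring
    linarith
  have h8 : (f - 1) ^ 2 ≤ f ^ 2 - 1 := by nlinarith
  have h9 : 1 / η * (f - 1) ^ 2 ≤ 1 / η * (f ^ 2 - 1) :=
    mul_le_mul_of_nonneg_left h8 (by positivity)
  have h10 : 2 * g * c * (f - 1) ≤ 2 * g * (f - 1) := by
    have : 0 ≤ 2 * g * (f - 1) := by
      have : 0 ≤ f - 1 := by linarith
      positivity
    nlinarith
  have h11 : 0 ≤ 2 * g * c * (f - 1) := by
    have : 0 ≤ f - 1 := by linarith
    positivity
  have h12 : 0 ≤ 2 * (d - c) * g := by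
    have : 0 ≤ d - c := by linarith
    positivity
  have h13 : 2 * (d - c) * g ≤ 2 * (d - c) * g ^ 2 := by
    have h14 : 0 ≤ 2 * (d - c) := by linarith
    have h15 : g ≤ g ^ 2 := by nlinarith
    exact mul_le_mul_of_nonneg_left h15 h14
  rw [h6, abs_le]
  constructor <;> linarith

/-- The average comparison. -/
lemma sum_abs_singSer_sub_le (z X : ℕ) (hz : 2 ≤ z) (η : ℝ) (hη : 0 < η) :
    ∑ m ∈ (Finset.Icc 1 X).filter (fun m => Even m), |singSer m - SP (primorial z) (m : ℤ)|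
      ≤ X * (η * Real.exp 9 + 1 / η * (Real.exp (9 / z) - 1)
        + 2 * (∏ p ∈ Finset.range (z + 1), lf p - twinC) * Real.exp 9) := by
  have h5 := twinC_le_prod z
  obtain ⟨δ, hδ⟩ : ∃ δ, δ = ∏ p ∈ Finset.range (z + 1), lf p - twinC := ⟨_, rfl⟩
  have hδ0 : 0 ≤ δ := by rw [hδ]; linarith
  rw [← hδ]
  calc ∑ m ∈ (Finset.Icc 1 X).filter (fun m => Even m), |singSer m - SP (primorial z) (m : ℤ)|
      ≤ ∑ m ∈ (Finset.Icc 1 X).filter (fun m => Even m),
        (η * (gT (fun p => p ≤ z) m) ^ 2 + 1 / η * ((gT (fun p => z < p) m) ^ 2 - 1)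
          + 2 * δ * (gT (fun p => p ≤ z) m) ^ 2) := by
        refine Finset.sum_le_sum fun m hm => ?_
        rw [Finset.mem_filter, Finset.mem_Icc] at hm
        rw [hδ]
        exact abs_singSer_sub_le z m hz hm.2 (by omega) η hη
    _ ≤ ∑ m ∈ Finset.Icc 1 X,
        (η * (gT (fun p => p ≤ z) m) ^ 2 + 1 / η * ((gT (fun p => z < p) m) ^ 2 - 1)
          + 2 * δ * (gT (fun p => p ≤ z) m) ^ 2) := by
        refine Finset.sum_le_sum_of_subset_of_nonneg (Finset.filter_subset _ _) ?_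
        intro m _ _
        have h1 := one_le_gT (fun p => z < p) m
        have h2 : 0 ≤ (gT (fun p => z < p) m) ^ 2 - 1 := by nlinarith
        positivity
    _ = η * ∑ m ∈ Finset.Icc 1 X, (gT (fun p => p ≤ z) m) ^ 2
        + 1 / η * ∑ m ∈ Finset.Icc 1 X, ((gT (fun p => z < p) m) ^ 2 - 1)
        + 2 * δ * ∑ m ∈ Finset.Icc 1 X, (gT (fun p => p ≤ z) m) ^ 2 := by
        rw [Finset.sum_add_distrib, Finset.sum_add_distrib, Finset.mul_sum, Finset.mul_sum,
          Finset.mul_sum]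
    _ ≤ η * (X * Real.exp 9) + 1 / η * (X * (Real.exp (9 / z) - 1))
        + 2 * δ * (X * Real.exp 9) := by
        have h1 := sum_gT_sq_le_all (fun p => p ≤ z) X
        have h2 := sum_gT_sq_tail z X (by omega)
        have h3 := mul_le_mul_of_nonneg_left h1 hη.le
        have h4 := mul_le_mul_of_nonneg_left h2 (one_div_pos.2 hη).le
        have h6 := mul_le_mul_of_nonneg_left h1 (by linarith : (0 : ℝ) ≤ 2 * δ)
        linarith
    _ = _ := by ring

lemma abs_exp_neg_sub_le (a b : ℝ) (ha : 0 ≤ a) (hb : 0 ≤ b) :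
    |Real.exp (-a) - Real.exp (-b)| ≤ |a - b| := by
  wlog h : a ≤ b generalizing a b with H
  · rw [abs_sub_comm, abs_sub_comm a b]
    exact H b a hb ha (by linarith)
  · have h1 : Real.exp (-b) ≤ Real.exp (-a) := Real.exp_le_exp.2 (by linarith)
    rw [abs_of_nonneg (by linarith), abs_of_nonpos (by linarith)]
    have h2 : Real.exp (-b) = Real.exp (-a) * Real.exp (a - b) := by
      rw [← Real.exp_add]; ring_nf
    have h3 := Real.add_one_le_exp (a - b)
    have h4 : Real.exp (-a) ≤ 1 := Real.exp_le_one_iff.2 (by linarith)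
    have h5 := Real.exp_pos (-a)
    rw [h2]
    nlinarith

lemma singSer_nonneg (m : ℕ) : 0 ≤ singSer m := by
  rw [singSer_eq 0 m]
  have h1 := one_le_gT (fun p => p ≤ 0) m
  have h2 := one_le_gT (fun p => 0 < p) m
  have h3 := twinC_nonneg
  positivity

lemma sum_even_cast (f : ℤ → ℝ) (X : ℕ) :
    ∑ m ∈ (Finset.Ioc (0 : ℤ) (X : ℤ)).filter (fun m => Even m), f m
      = ∑ m ∈ (Finset.Icc 1 X).filter (fun m => Even m), f (m : ℤ) := by
  symm
  refine Finset.sum_bij (fun (m : ℕ) _ => (m : ℤ)) ?_ ?_ ?_ ?_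
  · intro m hm
    rw [Finset.mem_filter, Finset.mem_Icc] at hm
    rw [Finset.mem_filter, Finset.mem_Ioc]
    exact ⟨⟨by omega, by omega⟩, by exact_mod_cast hm.2⟩
  · intro a _ b _ hab
    exact_mod_cast hab
  · intro m hm
    rw [Finset.mem_filter, Finset.mem_Ioc] at hm
    have e : ((m.toNat : ℕ) : ℤ) = m := by omega
    refine ⟨m.toNat, ?_, e⟩
    rw [Finset.mem_filter, Finset.mem_Icc]
    refine ⟨⟨by omega, by omega⟩, ?_⟩
    rw [← Int.even_coe_nat, e]
    exact hm.2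
  · intro m _
    rfl

/-- `DDlim t` is the mean value of `exp(-t S(m))` over the even numbers. -/
theorem mean_singSer_eps (t : ℝ) (ht : 0 ≤ t) (ε : ℝ) (hε : 0 < ε) : ∃ X₀ : ℕ, ∀ X : ℕ, X₀ ≤ X →
    |(∑ m ∈ (Finset.Icc 1 X).filter (fun m => Even m), Real.exp (-(t * singSer m)))
      - DDlim t * X / 2| ≤ ε * X := by
  have h9 : 0 < Real.exp 9 := Real.exp_pos 9
  obtain ⟨η, hη⟩ : ∃ η : ℝ, η = ε / (8 * (t + 1) * Real.exp 9) := ⟨_, rfl⟩
  have hη0 : 0 < η := by rw [hη]; positivity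
  have hηe : (t + 1) * (η * Real.exp 9) = ε / 8 := by
    rw [hη]; field_simp
  -- choice of `z`
  have hl1 : Tendsto (fun z : ℕ => (t + 1) * (1 / η * (Real.exp (9 / z) - 1)
      + 2 * (∏ p ∈ Finset.range (z + 1), lf p - twinC) * Real.exp 9)) atTop
      (𝓝 ((t + 1) * (1 / η * (Real.exp 0 - 1) + 2 * (twinC - twinC) * Real.exp 9))) := by
    refine Tendsto.const_mul _ (Tendsto.add (Tendsto.const_mul _ ?_) ?_)
    · refine Tendsto.sub_const ?_ _
      exact (Real.continuous_exp.tendsto 0).comp (tendsto_const_div_atTop_nhds_zero_nat 9)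
    · exact ((tendsto_prod_lf.sub_const twinC).const_mul 2).mul_const _
  have hl2 : (t + 1) * (1 / η * (Real.exp 0 - 1) + 2 * (twinC - twinC) * Real.exp 9) = 0 := by
    rw [Real.exp_zero]; ring
  rw [hl2] at hl1
  obtain ⟨z₀, hz₀⟩ := Filter.eventually_atTop.1 (hl1.eventually (gt_mem_nhds (show (0 : ℝ) < ε / 8 by
    linarith)))
  obtain ⟨w₀, hw₀⟩ := DDlim_le t ht (ε / 8) (by linarith)
  obtain ⟨z, hz⟩ : ∃ z : ℕ, z = max (max z₀ w₀) 2 := ⟨_, rfl⟩
  have hz2 : 2 ≤ z := by omega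
  have h1 := hz₀ z (by omega)
  have h2 := hw₀ z (by omega)
  have h3 := EE_le_DDlim t ht z hz2
  refine ⟨⌈16 * (primorial z : ℝ) / ε⌉₊, fun X hX => ?_⟩
  have hX1 : 16 * (primorial z : ℝ) / ε ≤ X := (Nat.le_ceil _).trans (by exact_mod_cast hX)
  have hX2 : 2 * (primorial z : ℝ) ≤ ε / 8 * X := by
    rw [div_le_iff₀ hε] at hX1
    linarith
  have h4 := sum_exp_SP (primorial z) (squarefree_primorial z)
    (Nat.prime_two.dvd_primorial_iff.2 hz2) t ht X
  rw [sum_even_cast] at h4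
  have h5 : |(∑ m ∈ (Finset.Icc 1 X).filter (fun m => Even m), Real.exp (-(t * singSer m)))
      - ∑ m ∈ (Finset.Icc 1 X).filter (fun m => Even m),
        Real.exp (-(t * SP (primorial z) (m : ℤ)))| ≤ ε / 4 * X := by
    rw [← Finset.sum_sub_distrib]
    refine (Finset.abs_sum_le_sum_abs _ _).trans ?_
    calc ∑ m ∈ (Finset.Icc 1 X).filter (fun m => Even m),
        |Real.exp (-(t * singSer m)) - Real.exp (-(t * SP (primorial z) (m : ℤ)))|
        ≤ ∑ m ∈ (Finset.Icc 1 X).filter (fun m => Even m),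
          (t + 1) * |singSer m - SP (primorial z) (m : ℤ)| := by
          refine Finset.sum_le_sum fun m _ => ?_
          refine (abs_exp_neg_sub_le _ _ (mul_nonneg ht (singSer_nonneg m))
            (mul_nonneg ht (SP_nonneg _ _))).trans ?_
          rw [← mul_sub, abs_mul, abs_of_nonneg ht]
          exact mul_le_mul_of_nonneg_right (by linarith) (abs_nonneg _)
      _ ≤ (t + 1) * (X * (η * Real.exp 9 + 1 / η * (Real.exp (9 / z) - 1)
        + 2 * (∏ p ∈ Finset.range (z + 1), lf p - twinC) * Real.exp 9)) := by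
          rw [← Finset.mul_sum]
          exact mul_le_mul_of_nonneg_left (sum_abs_singSer_sub_le z X hz2 η hη0) (by linarith)
      _ = ((t + 1) * (η * Real.exp 9) + (t + 1) * (1 / η * (Real.exp (9 / z) - 1)
        + 2 * (∏ p ∈ Finset.range (z + 1), lf p - twinC) * Real.exp 9)) * X := by ring
      _ ≤ ε / 4 * X := by
          refine mul_le_mul_of_nonneg_right ?_ (Nat.cast_nonneg X)
          linarith
  have hX0 : (0 : ℝ) ≤ X := Nat.cast_nonneg X
  have h6 := abs_le.1 h4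
  have h7 := abs_le.1 h5
  rw [abs_le]
  have h8 : EE (primorial z) t * X / 2 ≤ DDlim t * X / 2 := by
    have := mul_le_mul_of_nonneg_right h3 hX0
    linarith
  have h10 : DDlim t * X / 2 ≤ EE (primorial z) t * X / 2 + ε / 8 * X := by
    have := mul_le_mul_of_nonneg_right h2 hX0
    nlinarith
  constructor
  · nlinarith [h6.1, h6.2, h7.1, h7.2]
  · nlinarith [h6.1, h6.2, h7.1, h7.2]

end Pool.Agent.Lib.MP_bae66e_nt.LL
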