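import Pool.Agent.Lib.MP_bae66e_nt.Mg.G041
import Pool.Agent.Lib.MP_bae66e_nt.Cheb

/-!
# M04: from the thresholds `t log X loglog X` to `t log m loglog m`
-/

set_option autoImplicit false

open Finset Filter Topology

namespace Pool.Agent.Lib.MP_bae66e_nt.LL

open Classical in
/-- The number of even `m ≤ X` such that all primes `p` with `m - p` prime are
`> t log m loglog m`. -/
noncomputable def cntM (t : ℝ) (X : ℕ) : ℕ :=
  ((Finset.Icc 1 X).filter (fun m : ℕ => Even m ∧ ∀ p q : ℕ, p.Prime → q.Prime → p + q = m →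
    t * Real.log m * Real.log (Real.log m) < p)).card

lemma log_mul_loglog_mono {a b : ℝ} (ha : 3 ≤ a) (hab : a ≤ b) :
    Real.log a * Real.log (Real.log a) ≤ Real.log b * Real.log (Real.log b) := by
  have h1 : 1 ≤ Real.log a := by
    have h2 : Real.exp 1 ≤ a := by
      have := Real.exp_one_lt_d9
      linarith
    have := Real.log_le_log (Real.exp_pos 1) h2
    rwa [Real.log_exp] at this
  have h2 : Real.log a ≤ Real.log b := Real.log_le_log (by linarith) hab
  have h3 : Real.log (Real.log a) ≤ Real.log (Real.log b) := Real.log_le_log (by linarith) h2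
  have h4 : 0 ≤ Real.log (Real.log a) := Real.log_nonneg h1
  exact mul_le_mul h2 h3 h4 (by linarith)

lemma cntX_le_cntM (t : ℝ) (ht : 0 ≤ t) (X : ℕ) : cntX t X ≤ cntM t X := by
  classical
  unfold cntX cntM
  apply Finset.card_le_card
  intro m hm
  rw [Finset.mem_filter, Finset.mem_Icc] at hm ⊢
  refine ⟨hm.1, hm.2.1, fun p q hp hq hpq => ?_⟩
  refine lt_of_le_of_lt ?_ (hm.2.2 p q hp hq hpq)
  have hm4 : 4 ≤ m := by
    have := hp.two_le; have := hq.two_le; omega
  have h1 := log_mul_loglog_mono (a := (m : ℝ)) (b := (X : ℝ))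
    (by exact_mod_cast (by omega : 3 ≤ m)) (by exact_mod_cast hm.1.2)
  rw [mul_assoc, mul_assoc]
  exact mul_le_mul_of_nonneg_left h1 ht

/-- The two counts differ by `o(X)`: the difference counts `m ≤ δ X` and the `m = p + q` with `p` in
an interval of length `O(loglog X)`. -/
theorem cntM_le (t : ℝ) (ht : 0 < t) (ε : ℝ) (hε : 0 < ε) : ∃ X₀ : ℕ, ∀ X : ℕ, X₀ ≤ X →
    (cntM t X : ℝ) ≤ cntX t X + ε * X := by
  classical
  obtain ⟨δ, hδ⟩ : ∃ δ : ℝ, δ = min (ε / 4) (1 / 2) := ⟨_, rfl⟩
  have hδ0 : 0 < δ := by rw [hδ]; exact lt_min (by linarith) (by norm_num)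
  have hδε : δ ≤ ε / 4 := by rw [hδ]; exact min_le_left _ _
  have hδ1 : δ ≤ 1 / 2 := by rw [hδ]; exact min_le_right _ _
  obtain ⟨c, hc⟩ : ∃ c : ℝ, c = -Real.log δ := ⟨_, rfl⟩
  have hc0 : 0 < c := by
    rw [hc]
    have := Real.log_neg hδ0 (by linarith)
    linarith
  have h1 : Tendsto (fun X : ℕ => Real.log (X : ℝ)) atTop atTop :=
    Real.tendsto_log_atTop.comp (tendsto_natCast_atTop_atTop (R := ℝ))
  have h2 : Tendsto (fun X : ℕ => 5 * (t * (2 * c + c * Real.log (Real.log X)) + 1) / Real.log X)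
      atTop (𝓝 0) := by
    have h3 : Tendsto (fun u : ℝ => Real.log u / u) atTop (𝓝 0) :=
      Real.isLittleO_log_id_atTop.tendsto_div_nhds_zero
    have h4 : Tendsto (fun u : ℝ => 5 * t * c * (Real.log u / u) + 5 * (2 * t * c + 1) * u⁻¹) atTop
        (𝓝 (5 * t * c * 0 + 5 * (2 * t * c + 1) * 0)) :=
      (h3.const_mul _).add (tendsto_inv_atTop_zero.const_mul _)
    have h5 := h4.comp h1
    rw [mul_zero, mul_zero, add_zero] at h5
    refine h5.congr fun X => ?_
    simp only [Function.comp]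
    ring
  have h3 := (h2.eventually (gt_mem_nhds (show (0 : ℝ) < ε / 4 by linarith))).and
    ((h1.eventually (eventually_ge_atTop (2 * c + 4))).and
      ((tendsto_natCast_atTop_atTop (R := ℝ)).eventually
        (eventually_ge_atTop (max (3 / δ) (4 / ε)))))
  obtain ⟨X₀, hX₀⟩ := Filter.eventually_atTop.1 h3
  refine ⟨max X₀ 3, fun X hX => ?_⟩
  obtain ⟨h4, h5, h6⟩ := hX₀ X (by omega)
  have h61 : 3 / δ ≤ X := (le_max_left _ _).trans h6
  have h62 : 4 / ε ≤ X := (le_max_right _ _).trans h6
  have hX3 : 3 ≤ X := by omega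
  have hX0 : (0 : ℝ) < X := by
    have : (3 : ℝ) ≤ X := by exact_mod_cast hX3
    linarith
  have hδX : 3 ≤ δ * X := by
    rw [div_le_iff₀ hδ0] at h61; linarith
  have hεX : 1 ≤ ε / 4 * X := by
    rw [div_le_iff₀ hε] at h62; linarith
  obtain ⟨u, hu⟩ : ∃ u : ℝ, u = Real.log X := ⟨_, rfl⟩
  obtain ⟨v, hv⟩ : ∃ v : ℝ, v = Real.log (δ * X) := ⟨_, rfl⟩
  have huv : v = u - c := by
    rw [hv, hu, hc, Real.log_mul hδ0.ne' hX0.ne']; ring
  have hu4 : 2 * c + 4 ≤ u := by rw [hu]; exact h5
  have hv1 : 1 ≤ v := by linarith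
  have huv2 : u ≤ 2 * v := by linarith
  have hu1 : 1 ≤ u := by linarith
  have hlu : 0 ≤ Real.log u := Real.log_nonneg hu1
  have hlv : 0 ≤ Real.log v := Real.log_nonneg hv1
  have hlvu : Real.log v ≤ Real.log u := Real.log_le_log (by linarith) (by linarith)
  -- `u log u - v log v ≤ 2 c + c log u`
  have hdiff : u * Real.log u - v * Real.log v ≤ 2 * c + c * Real.log u := by
    have h7 : Real.log u - Real.log v ≤ c / v := by
      rw [← Real.log_div (by linarith) (by linarith)]
      have h8 := Real.log_le_sub_one_of_pos (show 0 < u / v by positivity)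
      have h9 : u / v - 1 = c / v := by
        rw [huv] at hv1 ⊢
        have : u - c ≠ 0 := by linarith
        field_simp
        ring
      linarith
    have h8 : u * (Real.log u - Real.log v) ≤ 2 * c := by
      calc u * (Real.log u - Real.log v) ≤ (2 * v) * (c / v) := by
            refine mul_le_mul huv2 h7 (by linarith) (by linarith)
        _ = 2 * c := by
            have : v ≠ 0 := by linarith
            field_simp
    have h9 : u * Real.log u - v * Real.log v = u * (Real.log u - Real.log v) + c * Real.log v := by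
      rw [huv]; ring
    have h10 : c * Real.log v ≤ c * Real.log u := mul_le_mul_of_nonneg_left hlvu hc0.le
    linarith
  obtain ⟨a, ha⟩ : ∃ a : ℕ, a = ⌊t * v * Real.log v⌋₊ := ⟨_, rfl⟩
  obtain ⟨b, hb⟩ : ∃ b : ℕ, b = ⌊t * u * Real.log u⌋₊ := ⟨_, rfl⟩
  have hcard : ((Finset.Ioc a b).card : ℝ) ≤ t * (2 * c + c * Real.log u) + 1 := by
    rw [Nat.card_Ioc]
    have h7 : t * v * Real.log v < (a : ℝ) + 1 := by rw [ha]; exact Nat.lt_floor_add_one _
    have h8 : (b : ℝ) ≤ t * u * Real.log u := by rw [hb]; exact Nat.floor_le (by positivity)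
    have h9 : 0 ≤ t * (2 * c + c * Real.log u) + 1 := by positivity
    rcases le_total a b with hab | hab
    · rw [Nat.cast_sub hab]
      nlinarith
    · rw [Nat.sub_eq_zero_of_le hab]
      simpa using h9
  -- the covering
  have hsub : ((Finset.Icc 1 X).filter (fun m : ℕ => Even m ∧ ∀ p q : ℕ, p.Prime → q.Prime →
        p + q = m → t * Real.log m * Real.log (Real.log m) < p))
      ⊆ ((Finset.Icc 1 X).filter (fun m : ℕ => Even m ∧ ∀ p q : ℕ, p.Prime → q.Prime → p + q = m →
        t * Real.log X * Real.log (Real.log X) < p)) ∪ (Finset.Icc 1 ⌊δ * X⌋₊ ∪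
        ((Finset.Ioc a b) ×ˢ ((Finset.Icc 1 X).filter Nat.Prime)).image (fun x => x.1 + x.2)) := by
    intro m hm
    rw [Finset.mem_filter, Finset.mem_Icc] at hm
    rw [Finset.mem_union, Finset.mem_union]
    by_cases h7 : ∀ p q : ℕ, p.Prime → q.Prime → p + q = m →
        t * Real.log X * Real.log (Real.log X) < p
    · left
      rw [Finset.mem_filter, Finset.mem_Icc]
      exact ⟨hm.1, hm.2.1, h7⟩
    · right
      push Not at h7
      obtain ⟨p, q, hp, hq, hpq, hle⟩ := h7
      have h8 := hm.2.2 p q hp hq hpq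
      by_cases h9 : m ≤ ⌊δ * X⌋₊
      · left
        exact Finset.mem_Icc.2 ⟨hm.1.1, h9⟩
      · right
        rw [Finset.mem_image]
        refine ⟨(p, q), ?_, hpq⟩
        rw [Finset.mem_product, Finset.mem_Ioc, Finset.mem_filter, Finset.mem_Icc]
        have h10 : δ * X < m := Nat.lt_of_floor_lt (not_le.1 h9)
        have h11 := log_mul_loglog_mono (a := δ * X) (b := (m : ℝ)) hδX h10.le
        rw [← hv] at h11
        refine ⟨⟨?_, ?_⟩, ⟨hq.one_lt.le, by omega⟩, hq⟩
        · have h12 : t * v * Real.log v < p := by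
            refine lt_of_le_of_lt ?_ h8
            rw [mul_assoc, mul_assoc]
            exact mul_le_mul_of_nonneg_left h11 ht.le
          have h13 : (a : ℝ) < p := by
            refine lt_of_le_of_lt ?_ h12
            rw [ha]
            exact Nat.floor_le (by positivity)
          exact_mod_cast h13
        · rw [hb]
          apply Nat.le_floor
          rw [hu]
          exact hle
  have h7 := (Finset.card_le_card hsub).trans ((Finset.card_union_le _ _).trans
    (Nat.add_le_add_left ((Finset.card_union_le _ _).trans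
      (Nat.add_le_add_left Finset.card_image_le _)) _))
  rw [Finset.card_product, Nat.card_Icc] at h7
  have h8 : ((((Finset.Icc 1 X).filter Nat.Prime).card : ℕ) : ℝ) ≤ 5 * X / Real.log X := by
    have h9 := pi_upper X (by omega)
    have h10 : ((Finset.Icc 1 X).filter Nat.Prime).card = Nat.primeCounting X := by
      rw [Nat.primeCounting, Nat.primeCounting', Nat.count_eq_card_filter_range]
      congr 1
      ext n
      simp only [Finset.mem_filter, Finset.mem_Icc, Finset.mem_range]
      constructor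
      · rintro ⟨⟨h1, h2⟩, h3⟩; exact ⟨by omega, h3⟩
      · rintro ⟨h1, h3⟩; exact ⟨⟨h3.one_lt.le, by omega⟩, h3⟩
    rw [h10]
    exact h9
  have h9 : (cntM t X : ℝ) ≤ cntX t X + (δ * X
      + (t * (2 * c + c * Real.log u) + 1) * (5 * X / Real.log X)) := by
    have h10 : (cntM t X : ℝ) ≤ cntX t X + (((⌊δ * X⌋₊ + 1 - 1 : ℕ) : ℝ)
        + ((Finset.Ioc a b).card : ℝ) * (((Finset.Icc 1 X).filter Nat.Prime).card : ℝ)) := by
      unfold cntM cntX
      exact_mod_cast h7
    have h11 : ((⌊δ * X⌋₊ + 1 - 1 : ℕ) : ℝ) ≤ δ * X := by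
      rw [Nat.add_sub_cancel]
      exact Nat.floor_le (by positivity)
    have h12 : ((Finset.Ioc a b).card : ℝ) * (((Finset.Icc 1 X).filter Nat.Prime).card : ℝ)
        ≤ (t * (2 * c + c * Real.log u) + 1) * (5 * X / Real.log X) := by
      refine mul_le_mul hcard h8 (Nat.cast_nonneg _) (by positivity)
    linarith
  have h10 : (t * (2 * c + c * Real.log u) + 1) * (5 * X / Real.log X)
      = 5 * (t * (2 * c + c * Real.log (Real.log X)) + 1) / Real.log X * X := by
    rw [hu]; ring
  have h11 : 5 * (t * (2 * c + c * Real.log (Real.log X)) + 1) / Real.log X * X ≤ ε / 4 * X :=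
    mul_le_mul_of_nonneg_right h4.le hX0.le
  have h12 : δ * X ≤ ε / 4 * X := mul_le_mul_of_nonneg_right hδε hX0.le
  have h13 : 0 ≤ ε * X := by positivity
  linarith

end Pool.Agent.Lib.MP_bae66e_nt.LL
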